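import Pool.Agent.Helper10.EN.BndB
import Pool.Agent.Helper10.SQ.Level

/-! MP_540de1: level of distribution `5/14` with the error term `10^n exp (- c √n)`. -/

set_option autoImplicit false

namespace Pool.Agent.Helper36.PX

open Finset Filter Pool.Agent.Helper10 Pool.Agent.Helper10.P5 Pool.Agent.Helper10.P4
  Pool.Agent.Helper10.EN Pool.Agent.Helper10.SQ

/-- level of distribution, bound form -/
theorem bnd_errE (B : ℕ) : ∃ c : ℝ, 0 < c ∧ ∃ T0 : ℕ, ∀ T : ℕ, T0 ≤ T →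
    ∀ κ Q J : ℕ, (∀ q : ℕ, q.Coprime 10 → q.Coprime κ) → Q ≤ 10 ^ J → 7 * J ≤ 5 * T + 20 →
      bndB B κ T Q ≤ 10 ^ T * Real.exp (-(c * √(T : ℝ))) := by
  obtain ⟨C, θ, hC, hθ0, hθ1, s, hs, htot⟩ := blkB_total B
  have hsR : (0 : ℝ) < s := by exact_mod_cast hs
  have hL : 0 < -Real.log θ := neg_pos.2 (Real.log_neg hθ0 hθ1)
  set L : ℝ := -Real.log θ with hLdef
  set η : ℝ := Real.exp (-(L / 2)) with hη
  have hη0 : 0 < η := Real.exp_pos _
  have hη1 : η < 1 := by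
    rw [hη, Real.exp_lt_one_iff]
    linarith
  have hθη : ∀ u : ℕ, θ ^ u = η ^ u * η ^ u := by
    intro u
    have h1 : θ = η * η := by
      rw [hη, ← Real.exp_add, hLdef]
      rw [show -(-Real.log θ / 2) + -(-Real.log θ / 2) = Real.log θ by ring, Real.exp_log hθ0]
    rw [← mul_pow, ← h1]
  have hlim : Tendsto (fun u : ℕ => (u : ℝ) ^ (2 * 2 ^ B) * η ^ u) atTop (nhds 0) :=
    tendsto_pow_const_mul_const_pow_of_abs_lt_one _ (by rw [abs_of_pos hη0]; exact hη1)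
  have hev := (hlim.eventually (gt_mem_nhds
    (show (0 : ℝ) < 1 / (C * (12 * (s : ℝ)) ^ (2 ^ B)) by positivity)))
  obtain ⟨u0, hu0⟩ := Filter.eventually_atTop.mp hev
  refine ⟨L / (4 * √(s : ℝ)), by positivity, s * (u0 + 1) ^ 2 + 12, ?_⟩
  intro T hT κ Q J hκ hQ hJ
  have hT1 : 1 ≤ T := by omega
  have hTR : (1 : ℝ) ≤ T := by exact_mod_cast hT1
  set u := Nat.sqrt (T / s) with hu
  have hu1 : u0 + 1 ≤ u := by
    rw [hu, Nat.le_sqrt, Nat.le_div_iff_mul_le hs]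
    nlinarith
  have hu2 : T < s * ((u + 1) * (u + 1)) := by
    have h1 : T / s < (u + 1) * (u + 1) := Nat.lt_succ_sqrt _
    rw [Nat.div_lt_iff_lt_mul hs] at h1
    linarith
  have hu1R : (1 : ℝ) ≤ u := by exact_mod_cast (by omega : 1 ≤ u)
  have hTu : (T : ℝ) ≤ 4 * s * (u : ℝ) ^ 2 := by
    have h1 : (T : ℝ) ≤ s * ((u + 1) * (u + 1)) := by exact_mod_cast hu2.le
    have h3 : ((u : ℝ) + 1) * (u + 1) ≤ 4 * (u : ℝ) ^ 2 := by nlinarith
    nlinarith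
  rcases Nat.eq_zero_or_pos Q with hQ0 | hQ0
  · subst hQ0
    unfold bndB
    simp
    positivity
  have h1 := bndB_le B κ T Q J hQ
  have h2 := htot κ T J hκ hJ
  have hT12 : (12 : ℝ) ≤ T := by exact_mod_cast (by omega : 12 ≤ T)
  have h3 : hsum B Q ≤ (3 * (T : ℝ)) ^ (2 ^ B) := by
    refine (hsum_le B Q hQ0).trans ?_
    have hlog : 1 + Real.log Q ≤ 3 * T := by
      have e1 : Real.log Q ≤ Real.log ((10 : ℝ) ^ J) := by
        apply Real.log_le_log (by exact_mod_cast hQ0)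
        exact_mod_cast hQ
      rw [Real.log_pow] at e1
      have e2 : 7 * ((J : ℕ) : ℝ) ≤ 5 * T + 20 := by exact_mod_cast hJ
      have e3 : Real.log 10 ≤ 3 := by
        have h16 : Real.log 10 ≤ Real.log 16 := Real.log_le_log (by norm_num) (by norm_num)
        have : Real.log 16 = 4 * Real.log 2 := by
          rw [show (16 : ℝ) = 2 ^ 4 by norm_num, Real.log_pow]
          norm_num
        have := Real.log_two_lt_d9
        linarith
      have e4 : (0 : ℝ) ≤ Real.log 10 := Real.log_nonneg (by norm_num)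
      have e5 : (0 : ℝ) ≤ ((J : ℕ) : ℝ) := by positivity
      have e6 : ((J : ℕ) : ℝ) * Real.log 10 ≤ ((J : ℕ) : ℝ) * 3 :=
        mul_le_mul_of_nonneg_left e3 e5
      linarith
    have hlog0 : 0 ≤ Real.log Q := Real.log_natCast_nonneg Q
    exact pow_le_pow_left₀ (by linarith) hlog _
  have h4 : (u : ℝ) ^ (2 * 2 ^ B) * η ^ u < 1 / (C * (12 * (s : ℝ)) ^ (2 ^ B)) :=
    hu0 u (by omega)
  have h5 : (3 * (T : ℝ)) ^ (2 ^ B) * (C * θ ^ u) ≤ η ^ u := by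
    calc (3 * (T : ℝ)) ^ (2 ^ B) * (C * θ ^ u)
        ≤ (3 * (4 * s * (u : ℝ) ^ 2)) ^ (2 ^ B) * (C * θ ^ u) := by
          apply mul_le_mul_of_nonneg_right _ (by positivity)
          apply pow_le_pow_left₀ (by positivity)
          linarith
      _ = C * (12 * (s : ℝ)) ^ (2 ^ B) * ((u : ℝ) ^ (2 * 2 ^ B) * η ^ u) * η ^ u := by
          rw [hθη, pow_mul (u : ℝ) 2 (2 ^ B),
            show 3 * (4 * (s : ℝ) * (u : ℝ) ^ 2) = (12 * (s : ℝ)) * (u : ℝ) ^ 2 by ring,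
            mul_pow (12 * (s : ℝ)) ((u : ℝ) ^ 2) (2 ^ B)]
          ring
      _ ≤ C * (12 * (s : ℝ)) ^ (2 ^ B) * (1 / (C * (12 * (s : ℝ)) ^ (2 ^ B))) * η ^ u := by
          apply mul_le_mul_of_nonneg_right _ (by positivity)
          exact mul_le_mul_of_nonneg_left h4.le (by positivity)
      _ = η ^ u := by
          have : C * (12 * (s : ℝ)) ^ (2 ^ B) ≠ 0 := by positivity
          field_simp
  have h6 : η ^ u ≤ Real.exp (-(L / (4 * √(s : ℝ)) * √(T : ℝ))) := by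
    have e1 : η ^ u = Real.exp (-(L / 2 * u)) := by
      rw [hη, ← Real.exp_nat_mul]
      congr 1
      ring
    rw [e1]
    apply Real.exp_le_exp.2
    have e2 : √(T : ℝ) ≤ 2 * √(s : ℝ) * u := by
      have e3 : √(T : ℝ) ≤ √(4 * s * (u : ℝ) ^ 2) := Real.sqrt_le_sqrt hTu
      have e4 : √(4 * s * (u : ℝ) ^ 2) = 2 * √(s : ℝ) * u := by
        rw [show (4 : ℝ) * s * (u : ℝ) ^ 2 = s * (2 * u) ^ 2 by ring, Real.sqrt_mul hsR.le,
          Real.sqrt_sq (by positivity)]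
        ring
      rwa [e4] at e3
    have hss : 0 < √(s : ℝ) := Real.sqrt_pos.2 hsR
    have e5 : L / (4 * √(s : ℝ)) * √(T : ℝ) ≤ L / (4 * √(s : ℝ)) * (2 * √(s : ℝ) * u) :=
      mul_le_mul_of_nonneg_left e2 (by positivity)
    have e6 : L / (4 * √(s : ℝ)) * (2 * √(s : ℝ) * u) = L / 2 * u := by
      field_simp
      ring
    linarith
  have hblk0 : 0 ≤ ∑ j ∈ range J, blkB B κ T j := Finset.sum_nonneg fun j _ => blkB_nonneg _ _ _ _
  calc bndB B κ T Q ≤ 10 ^ T * hsum B Q * ∑ j ∈ range J, blkB B κ T j := h1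
    _ ≤ 10 ^ T * (3 * (T : ℝ)) ^ (2 ^ B) * (C * θ ^ u) := by
        apply mul_le_mul _ h2 hblk0 (by positivity)
        exact mul_le_mul_of_nonneg_left h3 (by positivity)
    _ = 10 ^ T * ((3 * (T : ℝ)) ^ (2 ^ B) * (C * θ ^ u)) := by ring
    _ ≤ 10 ^ T * Real.exp (-(L / (4 * √(s : ℝ)) * √(T : ℝ))) :=
        mul_le_mul_of_nonneg_left (h5.trans h6) (by positivity)

/-- constants and the shift `n - 1` are absorbed by a smaller `c` -/
theorem absorb (c : ℝ) (hc : 0 < c) (K : ℝ) (hK : 0 < K) : ∃ n0 : ℕ, ∀ n : ℕ, n0 ≤ n →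
    K * Real.exp (-(c * √((n - 1 : ℕ) : ℝ))) ≤ Real.exp (-(c / 2 * √(n : ℝ))) := by
  obtain ⟨m, hm⟩ := exists_nat_gt ((4 * |Real.log K| / c) ^ 2)
  refine ⟨m + 4, fun n hn => ?_⟩
  have hn4 : (4 : ℝ) ≤ n := by exact_mod_cast (by omega : 4 ≤ n)
  have hm' : (m : ℝ) ≤ n := by exact_mod_cast (by omega : m ≤ n)
  have h6 : ((n - 1 : ℕ) : ℝ) = (n : ℝ) - 1 := by
    rw [Nat.cast_sub (by omega)]
    norm_num
  have hs0 : 0 ≤ √(n : ℝ) := Real.sqrt_nonneg _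
  have h7 : 3 / 4 * √(n : ℝ) ≤ √((n - 1 : ℕ) : ℝ) := by
    rw [h6]
    apply Real.le_sqrt_of_sq_le
    rw [mul_pow, Real.sq_sqrt (by linarith)]
    linarith
  have h8 : 4 * |Real.log K| / c ≤ √(n : ℝ) := by
    apply Real.le_sqrt_of_sq_le
    linarith
  rw [div_le_iff₀ hc] at h8
  have h9 : Real.log K ≤ |Real.log K| := le_abs_self _
  have h10 : K = Real.exp (Real.log K) := (Real.exp_log hK).symm
  rw [h10, ← Real.exp_add]
  apply Real.exp_le_exp.2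
  have h11 : c * (3 / 4 * √(n : ℝ)) ≤ c * √((n - 1 : ℕ) : ℝ) := mul_le_mul_of_nonneg_left h7 hc.le
  linarith

/-- **level of distribution `5/14`**, in terms of `cl`, with the error term `10^n exp (- c √n)` -/
theorem levelE (B : ℕ) : ∃ c : ℝ, 0 < c ∧ ∃ n0 : ℕ, ∀ n : ℕ, n0 ≤ n → ∀ Q : ℕ,
    (Q : ℝ) ≤ (10 : ℝ) ^ ((5 / 7 : ℝ) * (n : ℝ)) → ∀ a : ℕ → ℕ,
    ∑ q ∈ (Icc 1 Q).filter (fun q => q.Coprime 10), (q.divisors.card : ℝ) ^ B *
      |((cl n q (a q) : ℕ) : ℝ) - 9 * 10 ^ n / q| ≤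
        (10 : ℝ) ^ n * Real.exp (-(c * √(n : ℝ))) := by
  obtain ⟨c, hc, T0, hT0⟩ := bnd_errE B
  obtain ⟨n1, hn1⟩ := absorb c hc 9 (by norm_num)
  refine ⟨c / 2, by positivity, T0 + n1 + 100, ?_⟩
  intro n hn Q hQ a
  have hn0 : 1 ≤ n := by omega
  -- the exponent
  obtain ⟨J, hJ⟩ : ∃ J : ℕ, J = (5 * n + 6) / 7 := ⟨_, rfl⟩
  have hJn : 5 * n ≤ 7 * J := by omega
  have hQJ : Q ≤ 10 ^ J := by
    have h1 : (10 : ℝ) ^ ((5 / 7 : ℝ) * (n : ℝ)) ≤ (10 : ℝ) ^ (J : ℝ) := by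
      apply Real.rpow_le_rpow_of_exponent_le (by norm_num)
      have h2 : (5 : ℝ) * n ≤ 7 * J := by exact_mod_cast hJn
      linarith
    rw [Real.rpow_natCast] at h1
    exact_mod_cast hQ.trans h1
  have hJ2 : 7 * J ≤ 5 * (n - 1) + 20 := by omega
  have hκ : ∀ q : ℕ, q.Coprime 10 → q.Coprime 10 := fun q h => h
  have h1 := hT0 (n - 1) (by omega) 10 Q J hκ hQJ hJ2
  have h2 : ({N : ℕ | IsPalD (2 * n + 1) N}.ncard : ℝ) = 9 * 10 ^ n := by
    have h2 : {N : ℕ | IsPalD (2 * n + 1) N} = ((Pal n : Finset ℕ) : Set ℕ) := by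
      ext N
      simp [mem_Pal]
    rw [h2, Set.ncard_coe_finset, card_Pal n (by omega)]
  calc ∑ q ∈ (Icc 1 Q).filter (fun q => q.Coprime 10), (q.divisors.card : ℝ) ^ B *
      |((cl n q (a q) : ℕ) : ℝ) - 9 * 10 ^ n / q|
      ≤ ∑ q ∈ (Icc 1 Q).filter (fun q => q.Coprime 10), (q.divisors.card : ℝ) ^ B *
        (90 * (10 ^ (n - 1) / q * ∑ d ∈ q.divisors.erase 1, Psi5 10 (n - 1) d)) := by
        apply Finset.sum_le_sum
        intro q hq
        rw [Finset.mem_filter, Finset.mem_Icc] at hq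
        refine mul_le_mul_of_nonneg_left ?_ (by positivity)
        have := class_bound n q (a q) hn0 (by omega)
        rwa [cl_eq, h2] at this
    _ = 90 * bndB B 10 (n - 1) Q := by
        unfold bndB tau
        rw [Finset.mul_sum]
        apply Finset.sum_congr rfl
        intro q _
        ring
    _ ≤ 90 * (10 ^ (n - 1) * Real.exp (-(c * √((n - 1 : ℕ) : ℝ)))) := by linarith
    _ = (10 : ℝ) ^ n * (9 * Real.exp (-(c * √((n - 1 : ℕ) : ℝ)))) := by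
        have h10 : (10 : ℝ) ^ n = 10 * 10 ^ (n - 1) := by
          rw [← pow_succ']
          congr 1
          omega
        rw [h10]
        ring
    _ ≤ (10 : ℝ) ^ n * Real.exp (-(c / 2 * √(n : ℝ))) :=
        mul_le_mul_of_nonneg_left (hn1 n (by omega)) (by positivity)

end Pool.Agent.Helper36.PX
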