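import Pool.Agent.Helper10.SQ.B2
import Pool.Agent.Helper36.PX.BndE

/-! MP_540de1: square moduli with the error term `10^n exp (- c √n)`. -/

set_option autoImplicit false

namespace Pool.Agent.Helper36.PX

open Finset Filter Pool.Agent.Helper10 Pool.Agent.Helper10.P5 Pool.Agent.Helper10.P4
  Pool.Agent.Helper10.EN Pool.Agent.Helper10.SQ

/-- `B exp (c √n)` is smaller than an exponential -/
lemma b2_growthE (A : ℕ) (B c b : ℝ) (hB : 0 < B) (hc : 0 < c) :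
    ∃ n0 : ℕ, ∀ n : ℕ, n0 ≤ n →
      B * (n : ℝ) ^ A * Real.exp (b * √(n : ℝ)) ≤ (10 : ℝ) ^ (c * (n : ℝ)) := by
  obtain ⟨n1, h1⟩ := b2_growth A B (c / 2) hB (by linarith)
  have hl : 0 < Real.log 10 := Real.log_pos (by norm_num)
  obtain ⟨n2, h2⟩ := exists_nat_gt ((2 * b / (c * Real.log 10)) ^ 2)
  refine ⟨n1 + n2 + 1, fun n hn => ?_⟩
  have hn2 : (n2 : ℝ) ≤ n := by exact_mod_cast (by omega : n2 ≤ n)
  have hs : 2 * b / (c * Real.log 10) ≤ √(n : ℝ) := by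
    apply Real.le_sqrt_of_sq_le
    linarith
  rw [div_le_iff₀ (by positivity)] at hs
  have h3 : Real.exp (b * √(n : ℝ)) ≤ (10 : ℝ) ^ (c / 2 * (n : ℝ)) := by
    rw [Real.rpow_def_of_pos (by norm_num)]
    apply Real.exp_le_exp.2
    have h4 : √(n : ℝ) * √(n : ℝ) = n := Real.mul_self_sqrt (Nat.cast_nonneg n)
    have h5 : 0 ≤ √(n : ℝ) := Real.sqrt_nonneg _
    have h6 := mul_le_mul_of_nonneg_right hs h5
    have h7 : √(n : ℝ) * (c * Real.log 10) * √(n : ℝ) = c * Real.log 10 * n := by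
      rw [mul_right_comm, h4]
      ring
    rw [h7] at h6
    linarith
  have h4 := h1 n (by omega)
  have h5 : (10 : ℝ) ^ (c * (n : ℝ)) = (10 : ℝ) ^ (c / 2 * (n : ℝ)) * (10 : ℝ) ^ (c / 2 * (n : ℝ)) := by
    rw [← Real.rpow_add (by norm_num)]
    congr 1
    ring
  rw [h5]
  exact mul_le_mul h4 h3 (Real.exp_pos _).le (by positivity)

/-- the small moduli -/
lemma b2_smallE (c : ℝ) (n k : ℕ) (hk : (100 : ℝ) * k ≤ 29 * n)
    (hlev : ∀ Q : ℕ, (Q : ℝ) ≤ (10 : ℝ) ^ ((5 / 7 : ℝ) * (n : ℝ)) → ∀ a : ℕ → ℕ,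
      ∑ q ∈ (Icc 1 Q).filter (fun q => q.Coprime 10), (q.divisors.card : ℝ) ^ 0 *
        |((cl n q (a q) : ℕ) : ℝ) - 9 * 10 ^ n / q| ≤ (10 : ℝ) ^ n * Real.exp (-(c * √(n : ℝ))))
    (S : Finset ℕ) (hS : ∀ d ∈ S, 1 ≤ d ∧ d < 10 ^ k ∧ d.Coprime 10) (a : ℕ → ℕ) :
    ∑ d ∈ S, |((cl n (d ^ 2) (a d) : ℕ) : ℝ) - 9 * 10 ^ n / ((d : ℝ) ^ 2)| ≤
      (10 : ℝ) ^ n * Real.exp (-(c * √(n : ℝ))) := by
  have hQ : ((10 ^ (2 * k) : ℕ) : ℝ) ≤ (10 : ℝ) ^ ((5 / 7 : ℝ) * (n : ℝ)) := by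
    push_cast
    rw [← Real.rpow_natCast]
    apply Real.rpow_le_rpow_of_exponent_le (by norm_num)
    push_cast
    have : (0 : ℝ) ≤ n := Nat.cast_nonneg n
    linarith
  refine le_trans ?_ (hlev (10 ^ (2 * k)) hQ (fun q => a (Nat.sqrt q)))
  simp only [pow_zero, one_mul]
  have hinj : ∀ x ∈ S, ∀ y ∈ S, x ^ 2 = y ^ 2 → x = y := fun x _ y _ h =>
    Nat.pow_left_injective (by norm_num : (2 : ℕ) ≠ 0) h
  have e : ∑ d ∈ S, |((cl n (d ^ 2) (a d) : ℕ) : ℝ) - 9 * 10 ^ n / ((d : ℝ) ^ 2)| =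
      ∑ q ∈ S.image (fun d => d ^ 2),
        |((cl n q (a (Nat.sqrt q)) : ℕ) : ℝ) - 9 * 10 ^ n / (q : ℝ)| := by
    rw [Finset.sum_image hinj]
    apply Finset.sum_congr rfl
    intro d _
    rw [Nat.sqrt_eq']
    push_cast
    rfl
  rw [e]
  apply Finset.sum_le_sum_of_subset_of_nonneg
  · intro q hq
    rw [Finset.mem_image] at hq
    obtain ⟨d, hd, rfl⟩ := hq
    obtain ⟨h1, h2, h3⟩ := hS d hd
    rw [Finset.mem_filter, Finset.mem_Icc]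
    refine ⟨⟨Nat.one_le_pow _ _ h1, ?_⟩, h3.pow_left 2⟩
    rw [mul_comm 2 k, pow_mul]
    exact Nat.pow_le_pow_left h2.le 2
  · intro q _ _
    exact abs_nonneg _

theorem sqB2E (ε : ℝ) (hε : 0 < ε) : ∃ c : ℝ, 0 < c ∧ ∃ n0 : ℕ, ∀ n : ℕ, n0 ≤ n → ∀ D : ℕ,
    (D : ℝ) ≤ (10 : ℝ) ^ ((1 - ε) * (n : ℝ)) → ∀ a : ℕ → ℕ,
    ∑ d ∈ (Icc 1 D).filter (fun d : ℕ => d.Coprime 10),
      |((cl n (d ^ 2) (a d) : ℕ) : ℝ) - 9 * 10 ^ n / ((d : ℝ) ^ 2)| ≤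
        (10 : ℝ) ^ n * Real.exp (-(c * √(n : ℝ))) := by
  set e := min ε (1 / 5) with he
  have he0 : 0 < e := lt_min hε (by norm_num)
  have he1 : e ≤ 1 / 5 := min_le_right _ _
  have heε : e ≤ ε := min_le_left _ _
  obtain ⟨δ, hδ, n1, h7⟩ := sqA7 e he0
  obtain ⟨c, hc, n2, hlev⟩ := levelE 0
  obtain ⟨n3, hg1⟩ := b2_growthE 0 540 (1 / 4) (c / 2) (by norm_num) (by norm_num)
  obtain ⟨n4, hg2⟩ := b2_growthE 1 3 δ (c / 2) (by norm_num) hδ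
  obtain ⟨n5, hn5⟩ := exists_nat_gt ((2 * Real.log 3 / c) ^ 2)
  refine ⟨c / 2, by positivity, n1 + n2 + n3 + n4 + n5 + 100, fun n hn D hD a => ?_⟩
  set k := 29 * n / 100 with hk
  have hk1 : 100 * k ≤ 29 * n := Nat.mul_div_le _ _
  have hk2 : 29 * n < 100 * k + 100 := by omega
  have hk1R : (100 : ℝ) * k ≤ 29 * n := by exact_mod_cast hk1
  have hk2R : (29 : ℝ) * n < 100 * k + 100 := by exact_mod_cast hk2
  have hn100 : (100 : ℝ) ≤ n := by exact_mod_cast (by omega : 100 ≤ n)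
  have hn0 : (0 : ℝ) < n := by linarith
  have hD' : (D : ℝ) ≤ (10 : ℝ) ^ ((1 - e) * (n : ℝ)) := by
    refine le_trans hD ?_
    apply Real.rpow_le_rpow_of_exponent_le (by norm_num)
    apply mul_le_mul_of_nonneg_right _ hn0.le
    linarith
  set F := (Icc 1 D).filter (fun d : ℕ => d.Coprime 10) with hF
  have hsplit := Finset.sum_filter_add_sum_filter_not F (fun d => d < 10 ^ k)
    (fun d => |((cl n (d ^ 2) (a d) : ℕ) : ℝ) - 9 * 10 ^ n / ((d : ℝ) ^ 2)|)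
  rw [← hsplit]
  have p1 : ∑ d ∈ F.filter (fun d => d < 10 ^ k),
      |((cl n (d ^ 2) (a d) : ℕ) : ℝ) - 9 * 10 ^ n / ((d : ℝ) ^ 2)| ≤
      (10 : ℝ) ^ n * Real.exp (-(c * √(n : ℝ))) := by
    apply b2_smallE c n k hk1R (fun Q hQ a => hlev n (by omega) Q hQ a)
    intro d hd
    rw [Finset.mem_filter, hF, Finset.mem_filter, Finset.mem_Icc] at hd
    exact ⟨hd.1.1.1, hd.2, hd.1.2⟩
  have p2 : ∑ d ∈ F.filter (fun d => ¬ d < 10 ^ k),
      |((cl n (d ^ 2) (a d) : ℕ) : ℝ) - 9 * 10 ^ n / ((d : ℝ) ^ 2)| ≤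
      n * (10 : ℝ) ^ ((1 - δ) * (n : ℝ)) + 18 * 10 ^ n / 10 ^ k := by
    have q1 : ∑ d ∈ F.filter (fun d => ¬ d < 10 ^ k),
      |((cl n (d ^ 2) (a d) : ℕ) : ℝ) - 9 * 10 ^ n / ((d : ℝ) ^ 2)| ≤
      ∑ d ∈ F.filter (fun d => ¬ d < 10 ^ k),
        (((cl n (d ^ 2) (a d) : ℕ) : ℝ) + 9 * 10 ^ n / ((d : ℝ) ^ 2)) := by
      apply Finset.sum_le_sum
      intro d _
      refine le_trans (abs_sub _ _) ?_
      rw [abs_of_nonneg (Nat.cast_nonneg _), abs_of_nonneg (by positivity)]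
    rw [Finset.sum_add_distrib] at q1
    have hmem : ∀ d ∈ F.filter (fun d => ¬ d < 10 ^ k), 10 ^ k ≤ d ∧ d ≤ D ∧ d.Coprime 10 := by
      intro d hd
      rw [Finset.mem_filter, hF, Finset.mem_filter, Finset.mem_Icc] at hd
      exact ⟨by omega, hd.1.1.2, hd.1.2⟩
    have q2 := b2_blocks n k D e ((10 : ℝ) ^ ((1 - δ) * (n : ℝ))) he0 (by omega)
      (by nlinarith) hD' a (by positivity) (fun k h1 h2 => h7 n k (by omega) h1 h2 a)
      (F.filter (fun d => ¬ d < 10 ^ k)) hmem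
    have q3 := b2_tail n k D (F.filter (fun d => ¬ d < 10 ^ k))
      (fun d hd => ⟨(hmem d hd).1, (hmem d hd).2.1⟩)
    linarith
  -- the three parts
  have h10 : (0 : ℝ) < (10 : ℝ) ^ n := by positivity
  set E : ℝ := Real.exp (-(c / 2 * √(n : ℝ))) with hE
  have hE0 : 0 < E := Real.exp_pos _
  have hEi : E * Real.exp (c / 2 * √(n : ℝ)) = 1 := by
    rw [hE, ← Real.exp_add]
    simp
  have r1 : (10 : ℝ) ^ n * Real.exp (-(c * √(n : ℝ))) ≤ (10 : ℝ) ^ n * (E / 3) := by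
    apply mul_le_mul_of_nonneg_left _ h10.le
    have e1 : Real.exp (-(c * √(n : ℝ))) = E * E := by
      rw [hE, ← Real.exp_add]
      congr 1
      ring
    have e2 : E ≤ 1 / 3 := by
      have hn5' : (n5 : ℝ) ≤ n := by exact_mod_cast (by omega : n5 ≤ n)
      have e3 : 2 * Real.log 3 / c ≤ √(n : ℝ) := by
        apply Real.le_sqrt_of_sq_le
        linarith
      rw [div_le_iff₀ hc] at e3
      rw [hE, show (1 : ℝ) / 3 = Real.exp (-Real.log 3) by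
        rw [Real.exp_neg, Real.exp_log (by norm_num)]; norm_num]
      apply Real.exp_le_exp.2
      linarith
    rw [e1]
    have := mul_le_mul_of_nonneg_left e2 hE0.le
    linarith
  have r2 : 18 * (10 : ℝ) ^ n / 10 ^ k ≤ (10 : ℝ) ^ n * (E / 3) := by
    have g1 := hg1 n (by omega)
    have g2 : (10 : ℝ) ^ (1 / 4 * (n : ℝ)) ≤ 10 * 10 ^ k := by
      have : (10 : ℝ) * 10 ^ k = (10 : ℝ) ^ ((k : ℝ) + 1) := by
        rw [Real.rpow_add (by norm_num), Real.rpow_natCast, Real.rpow_one]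
        ring
      rw [this]
      apply Real.rpow_le_rpow_of_exponent_le (by norm_num)
      linarith
    have g3 : 54 * Real.exp (c / 2 * √(n : ℝ)) ≤ 10 ^ k := by
      rw [pow_zero, mul_one] at g1
      linarith
    rw [div_le_iff₀ (by positivity)]
    have g4 : 54 * Real.exp (c / 2 * √(n : ℝ)) * E ≤ 10 ^ k * E := mul_le_mul_of_nonneg_right g3 hE0.le
    have g5 : 54 * Real.exp (c / 2 * √(n : ℝ)) * E = 54 := by
      rw [mul_assoc, mul_comm _ E, hEi, mul_one]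
    rw [g5] at g4
    have g6 := mul_le_mul_of_nonneg_left g4 h10.le
    linarith
  have r3 : n * (10 : ℝ) ^ ((1 - δ) * (n : ℝ)) ≤ (10 : ℝ) ^ n * (E / 3) := by
    have g1 := hg2 n (by omega)
    have g2 : (10 : ℝ) ^ ((1 - δ) * (n : ℝ)) * (10 : ℝ) ^ (δ * (n : ℝ)) = 10 ^ n := by
      rw [← Real.rpow_add (by norm_num)]
      have : (1 - δ) * (n : ℝ) + δ * (n : ℝ) = n := by ring
      rw [this, Real.rpow_natCast]
    have g3 : (0 : ℝ) < (10 : ℝ) ^ ((1 - δ) * (n : ℝ)) := by positivity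
    rw [pow_one] at g1
    have g4 : 3 * (n : ℝ) ≤ (10 : ℝ) ^ (δ * (n : ℝ)) * E := by
      have g5 := mul_le_mul_of_nonneg_right g1 hE0.le
      have g6 : 3 * (n : ℝ) * Real.exp (c / 2 * √(n : ℝ)) * E = 3 * n := by
        rw [mul_assoc, mul_comm _ E, hEi, mul_one]
      rwa [g6] at g5
    rw [← g2]
    have := mul_le_mul_of_nonneg_left g4 g3.le
    linarith
  linarith

end Pool.Agent.Helper36.PX
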